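import Pool.Agent.Helper12.AD.Stmts

set_option autoImplicit false

open scoped MeasureTheory ENNReal
open Complex

noncomputable section

theorem AD.st_CPX (hINV : AD.ST_INV) (hCAU : AD.ST_CAU) : AD.ST_CPX := by
  intro n r p q hpq
  cases n with
  | zero => simp
  | succ n =>
    by_cases hne : (AX.K r p).Nonempty
    · rcases lt_trichotomy r 0 with hr | hr | hr
      · exfalso
        obtain ⟨x, hx⟩ := hne
        unfold AX.K at hx
        rw [Set.mem_iInter] at hx
        have h1 := hx 0
        rw [Metric.closedBall_eq_empty.2 hr] at h1
        exact h1
      · have hsub : (⋂ i, Metric.closedBall (p i) r) ⊆ {p 0} := by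
          refine (Set.iInter_subset _ 0).trans ?_
          rw [hr, Metric.closedBall_zero]
        have hcl : IsClosed (⋂ i, Metric.closedBall (p i) r) :=
          isClosed_iInter (fun i => Metric.isClosed_closedBall)
        have h0 : μH[1] (frontier (⋂ i, Metric.closedBall (p i) r)) = 0 := by
          refine MeasureTheory.measure_mono_null (hcl.frontier_subset.trans hsub) ?_
          have := MeasureTheory.Measure.nullSingletonClass_hausdorff ℂ
            (show (0 : ℝ) < 1 from one_pos)
          exact MeasureTheory.measure_singleton _
        rw [h0]
        exact bot_le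
      · obtain ⟨hq, hle⟩ := hINV n r p q hr hpq hne
        have h1 := hCAU n r p hr hne
        have h2 := hCAU n r q hr hq
        unfold AX.K at h1 h2
        rw [h1, h2]
        exact ENNReal.ofReal_le_ofReal hle
    · rw [Set.not_nonempty_iff_eq_empty] at hne
      unfold AX.K at hne
      rw [hne, frontier_empty, MeasureTheory.measure_empty]
      exact bot_le
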