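import Pool.Agent.Helper12.AD.Stmts

set_option autoImplicit false

open scoped MeasureTheory ENNReal
open Complex

noncomputable section

namespace Pool.Agent.Helper77.AD

variable {E F : Type} [NormedAddCommGroup E] [InnerProductSpace ℝ E] [NormedAddCommGroup F]
  [InnerProductSpace ℝ F]

theorem reach_map (φ : E ≃ₗᵢ[ℝ] F) {n : ℕ} {p q : Fin n → E} (h : AD.Reach p q) :
    AD.Reach (fun i => φ (p i)) (fun i => φ (q i)) := by
  induction h with
  | step h =>
    refine AD.Reach.step ?_
    obtain ⟨e, he, h1, h2⟩ := h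
    refine ⟨φ e, by rw [φ.norm_map, he], ?_, ?_⟩
    · intro i
      obtain ⟨t, ht⟩ := h1 i
      refine ⟨t, ?_⟩
      change φ _ = φ _ + t • φ e
      rw [ht, map_add, map_smul]
    · intro i j
      have h3 := h2 i j
      rw [← map_sub, ← map_sub, φ.inner_map_map, φ.inner_map_map]
      exact h3
  | comp _ _ ih1 ih2 => exact AD.Reach.comp ih1 ih2
  | @mix p q s a b _ _ ha hb hab ih1 ih2 =>
    have h1 := AD.Reach.mix ih1 ih2 ha hb hab
    have h2 : (fun i => φ ((a • q + b • s) i)) =
        a • (fun i => φ (q i)) + b • (fun i => φ (s i)) := by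
      funext i
      simp only [Pi.add_apply, Pi.smul_apply, map_add, map_smul]
    rw [h2]
    exact h1
  | @lim p q u _ hu ih =>
    refine AD.Reach.lim ih ?_
    rw [tendsto_pi_nhds] at hu ⊢
    intro i
    exact (φ.continuous.tendsto (q i)).comp (hu i)

end Pool.Agent.Helper77.AD

theorem AD.st_FIN (hC : AD.ST_CPX) : AD.ST_FIN := by
  intro n r p q hpq
  set ψ : EuclideanSpace ℝ (Fin 2) ≃ₗᵢ[ℝ] ℂ := Complex.orthonormalBasisOneI.repr.symm with hψ
  have hfr : ∀ s : Fin n → EuclideanSpace ℝ (Fin 2),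
      μH[1] (frontier (⋂ i, Metric.closedBall (s i) r)) =
      μH[1] (frontier (⋂ i, Metric.closedBall (ψ (s i)) r)) := by
    intro s
    have hall : ψ.toIsometryEquiv '' (⋂ i, Metric.closedBall (s i) r) =
        ⋂ i, Metric.closedBall (ψ (s i)) r := by
      ext z
      obtain ⟨y, rfl⟩ := ψ.toIsometryEquiv.surjective z
      rw [ψ.toIsometryEquiv.injective.mem_set_image]
      simp only [Set.mem_iInter, Metric.mem_closedBall]
      have h2 : ∀ i, dist (ψ.toIsometryEquiv y) (ψ (s i)) = dist y (s i) := fun i =>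
        ψ.toIsometryEquiv.dist_eq y (s i)
      simp only [h2]
    rw [← hall]
    have h1 : frontier (ψ.toIsometryEquiv '' (⋂ i, Metric.closedBall (s i) r)) =
        ψ.toIsometryEquiv '' frontier (⋂ i, Metric.closedBall (s i) r) :=
      (ψ.toIsometryEquiv.toHomeomorph.image_frontier _).symm
    rw [h1, ψ.toIsometryEquiv.hausdorffMeasure_image]
  rw [hfr p, hfr q]
  exact hC n r (fun i => ψ (p i)) (fun i => ψ (q i)) (Pool.Agent.Helper77.AD.reach_map ψ hpq)
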