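import Pool.Agent.Helper12.AD.Stmts

set_option autoImplicit false

open scoped MeasureTheory ENNReal
open Complex

noncomputable section

namespace Pool.Agent.Helper77.AD

theorem K_compact {n : ℕ} (r : ℝ) (c : Fin (n + 1) → ℂ) : IsCompact (AX.K r c) := by
  have hcl : IsClosed (AX.K r c) := isClosed_iInter (fun i => Metric.isClosed_closedBall)
  have hsub : AX.K r c ⊆ Metric.closedBall (c 0) r := Set.iInter_subset _ 0
  exact (isCompact_closedBall (c 0) r).of_isClosed_subset hcl hsub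

theorem cont_pair (θ : ℝ) : Continuous (fun z : ℂ => (z * (starRingEnd ℂ) (AX.e θ)).re) :=
  Complex.continuous_re.comp (continuous_id.mul continuous_const)

theorem h_attained {S : Set ℂ} (hS : IsCompact S) (hne : S.Nonempty) (θ : ℝ) :
    ∃ x ∈ S, AD.h S θ = (x * (starRingEnd ℂ) (AX.e θ)).re := by
  obtain ⟨x, hx, hx2⟩ := hS.exists_sSup_image_eq hne (cont_pair θ).continuousOn
  exact ⟨x, hx, hx2⟩

theorem le_h {S : Set ℂ} (hS : IsCompact S) (θ : ℝ) {z : ℂ} (hz : z ∈ S) :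
    (z * (starRingEnd ℂ) (AX.e θ)).re ≤ AD.h S θ :=
  le_csSup (hS.bddAbove_image (cont_pair θ).continuousOn) ⟨z, hz, rfl⟩

theorem mix_mem {n : ℕ} {r a b : ℝ} {q s : Fin n → ℂ} (ha : 0 ≤ a) (hb : 0 ≤ b) (hab : a + b = 1)
    {x y : ℂ} (hx : x ∈ AX.K r q) (hy : y ∈ AX.K r s) :
    a • x + b • y ∈ AX.K r (a • q + b • s) := by
  unfold AX.K at *
  rw [Set.mem_iInter] at *
  intro i
  have h1 := hx i
  have h2 := hy i
  rw [Metric.mem_closedBall, dist_eq_norm] at *
  have h3 : a • x + b • y - (a • q + b • s) i = a • (x - q i) + b • (y - s i) := by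
    simp only [Pi.add_apply, Pi.smul_apply, smul_sub]
    ring
  rw [h3]
  calc ‖a • (x - q i) + b • (y - s i)‖ ≤ ‖a • (x - q i)‖ + ‖b • (y - s i)‖ := norm_add_le _ _
    _ = a * ‖x - q i‖ + b * ‖y - s i‖ := by
        rw [norm_smul, norm_smul, Real.norm_of_nonneg ha, Real.norm_of_nonneg hb]
    _ ≤ a * r + b * r := by
        have := mul_le_mul_of_nonneg_left h1 ha
        have := mul_le_mul_of_nonneg_left h2 hb
        linarith
    _ = r := by rw [← add_mul, hab, one_mul]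

end Pool.Agent.Helper77.AD

theorem AD.st_MIX : AD.ST_MIX := by
  intro n r q s a b _ ha hb hab hq hs
  obtain ⟨x0, hx0⟩ := hq
  obtain ⟨y0, hy0⟩ := hs
  refine ⟨⟨_, Pool.Agent.Helper77.AD.mix_mem ha hb hab hx0 hy0⟩, ?_⟩
  intro θ
  obtain ⟨x, hx, hx2⟩ := Pool.Agent.Helper77.AD.h_attained
    (Pool.Agent.Helper77.AD.K_compact r q) ⟨x0, hx0⟩ θ
  obtain ⟨y, hy, hy2⟩ := Pool.Agent.Helper77.AD.h_attained
    (Pool.Agent.Helper77.AD.K_compact r s) ⟨y0, hy0⟩ θ
  have h1 := Pool.Agent.Helper77.AD.le_h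
    (Pool.Agent.Helper77.AD.K_compact r (a • q + b • s)) θ
    (Pool.Agent.Helper77.AD.mix_mem ha hb hab hx hy)
  rw [hx2, hy2]
  have h2 : ((a • x + b • y) * (starRingEnd ℂ) (AX.e θ)).re =
      a * (x * (starRingEnd ℂ) (AX.e θ)).re + b * (y * (starRingEnd ℂ) (AX.e θ)).re := by
    rw [add_mul, Complex.add_re, smul_mul_assoc, smul_mul_assoc, Complex.smul_re, Complex.smul_re,
      smul_eq_mul, smul_eq_mul]
  rw [← h2]
  exact h1
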