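import Pool.Agent.Helper12.AD.Stmts

set_option autoImplicit false

open scoped MeasureTheory ENNReal
open Complex

noncomputable section

namespace Pool.Agent.Helper77.AD

theorem dk_iff {r : ℝ} (hr : 0 < r) {u x c : ℂ} (hu : ‖u‖ = 1) :
    x ∈ Metric.closedBall c r ↔
      AD.Dk r ((x * (starRingEnd ℂ) u).re - (c * (starRingEnd ℂ) u).re)
        ((x * (starRingEnd ℂ) u).im - (c * (starRingEnd ℂ) u).im) := by
  rw [Metric.mem_closedBall, dist_eq_norm]
  unfold AD.Dk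
  have h1 : ‖(x - c) * (starRingEnd ℂ) u‖ = ‖x - c‖ := by
    rw [norm_mul, Complex.norm_conj, hu, mul_one]
  have h2 : ((x * (starRingEnd ℂ) u).re - (c * (starRingEnd ℂ) u).re) ^ 2 +
      ((x * (starRingEnd ℂ) u).im - (c * (starRingEnd ℂ) u).im) ^ 2 = ‖x - c‖ ^ 2 := by
    rw [← h1, ← Complex.normSq_eq_norm_sq, Complex.normSq_apply, sub_mul, Complex.sub_re,
      Complex.sub_im]
    ring
  rw [h2]
  constructor
  · intro h
    exact pow_le_pow_left₀ (norm_nonneg _) h 2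
  · intro h
    exact le_of_sq_le_sq h hr.le
where
  le_of_sq_le_sq {a b : ℝ} (h : a ^ 2 ≤ b ^ 2) (hb : 0 ≤ b) : a ≤ b := by
    nlinarith [abs_le_of_sq_le_sq' h hb]

end Pool.Agent.Helper77.AD

theorem AD.st_MNK (hHEL : AD.ST_HEL) : AD.ST_MNK := by
  intro n r p q u hr hu hpq hcon x hx y hy
  have huu : u * (starRingEnd ℂ) u = 1 := by
    rw [Complex.mul_conj, Complex.normSq_eq_norm_sq, hu]
    norm_num
  have huu' : (starRingEnd ℂ) u * u = 1 := by rw [mul_comm]; exact huu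
  have him : ∀ i, (q i * (starRingEnd ℂ) u).im = (p i * (starRingEnd ℂ) u).im := by
    intro i
    obtain ⟨t, ht⟩ := hpq i
    have h1 : q i * (starRingEnd ℂ) u = p i * (starRingEnd ℂ) u + (t : ℂ) := by
      rw [ht, add_mul, mul_assoc, huu, mul_one]
    rw [h1, Complex.add_im, Complex.ofReal_im, add_zero]
  unfold AX.K at hx hy
  rw [Set.mem_iInter] at hx hy
  obtain ⟨u₁, u₂, v₁, v₂, e1, e2, hu1, hv1⟩ := hHEL n r
    (fun i => (p i * (starRingEnd ℂ) u).re) (fun i => (p i * (starRingEnd ℂ) u).im)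
    (fun i => (q i * (starRingEnd ℂ) u).re)
    (x * (starRingEnd ℂ) u).re (x * (starRingEnd ℂ) u).im
    (y * (starRingEnd ℂ) u).re (y * (starRingEnd ℂ) u).im hr
    (by
      intro i j
      have h1 := hcon i j
      rw [sub_mul, sub_mul, Complex.sub_re, Complex.sub_re] at h1
      exact h1)
    (fun i => (Pool.Agent.Helper77.AD.dk_iff hr hu).1 (hx i))
    (fun i => (Pool.Agent.Helper77.AD.dk_iff hr hu).1 (hy i))
  have hA : ∀ a b : ℝ, (((a : ℂ) + (b : ℂ) * I) * u) * (starRingEnd ℂ) u =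
      (a : ℂ) + (b : ℂ) * I := by
    intro a b
    rw [mul_assoc, huu, mul_one]
  have hre : ∀ a b : ℝ, ((((a : ℂ) + (b : ℂ) * I) * u) * (starRingEnd ℂ) u).re = a := by
    intro a b
    rw [hA]
    simp
  have himm : ∀ a b : ℝ, ((((a : ℂ) + (b : ℂ) * I) * u) * (starRingEnd ℂ) u).im = b := by
    intro a b
    rw [hA]
    simp
  refine ⟨((u₁ : ℂ) + (u₂ : ℂ) * I) * u, ?_, ((v₁ : ℂ) + (v₂ : ℂ) * I) * u, ?_, ?_⟩
  · unfold AX.K
    rw [Set.mem_iInter]
    intro i
    rw [Pool.Agent.Helper77.AD.dk_iff hr hu, hre, himm, him]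
    exact hu1 i
  · unfold AX.K
    rw [Set.mem_iInter]
    intro i
    rw [Pool.Agent.Helper77.AD.dk_iff hr hu, hre, himm, him]
    exact hv1 i
  · have hX : x = (((x * (starRingEnd ℂ) u).re : ℂ) + ((x * (starRingEnd ℂ) u).im : ℂ) * I) * u := by
      rw [Complex.re_add_im, mul_assoc, huu', mul_one]
    have hY : y = (((y * (starRingEnd ℂ) u).re : ℂ) + ((y * (starRingEnd ℂ) u).im : ℂ) * I) * u := by
      rw [Complex.re_add_im, mul_assoc, huu', mul_one]
    have key : ∀ a b c d : ℝ, ((a : ℂ) + (b : ℂ) * I) * u -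
        u ^ 2 * (starRingEnd ℂ) (((c : ℂ) + (d : ℂ) * I) * u) =
        (((a - c : ℝ) : ℂ) + ((b + d : ℝ) : ℂ) * I) * u := by
      intro a b c d
      have h1 : (starRingEnd ℂ) (((c : ℂ) + (d : ℂ) * I) * u) =
          ((c : ℂ) - (d : ℂ) * I) * (starRingEnd ℂ) u := by
        rw [map_mul, map_add, map_mul, Complex.conj_ofReal, Complex.conj_ofReal, Complex.conj_I]
        ring
      rw [h1]
      have h2 : u ^ 2 * (((c : ℂ) - (d : ℂ) * I) * (starRingEnd ℂ) u) =
          ((c : ℂ) - (d : ℂ) * I) * u * (u * (starRingEnd ℂ) u) := by ring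
      rw [h2, huu]
      push_cast
      ring
    rw [key, e1, e2, ← key, ← hX, ← hY]
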